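import Pool.Agent.R36.ToughT

/-!
# MP_c98209_co, Q1: minimally tough co-chordal graphs with co-diameter two

A co-chordal graph with co-diameter two is non-trivially minimally tough if and only if it is
isomorphic to some `T_ℓ`, `ℓ ≥ 1`.

Idea of the proof. Let `H` be the complement and `t` the toughness. For an edge `xy` with both ends
simplicial in `H`, with `a` common nonneighbours and `r` common neighbours, the criticality of `xy`
gives `r + τ < t (a + 2)` where `τ` is the size of a set covering the edges between the private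
nonneighbours of `x` and of `y`, while toughness gives `r ≥ t (a + 1)`. If `t ≤ 1` then `τ = 0`, and
if `t ≥ 1` counting shows that the private sets have at most one element; in both cases the
nonneighbours of a maximal clique `X` of simplicial vertices form an independent set. By Dirac's
theorem there is no further vertex, so `G` is split, and the split case is finished by counting.
-/

set_option autoImplicit false

namespace Pool.Agent.Results.MP_c98209_co.OnlyTl

open Pool.Agent.R36.Tough

theorem result :
    (∀ (V : Type) [Fintype V] (G : SimpleGraph V), CoChordal G → CoDiamTwo G →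
      ((MinimallyTough G ∧ G ≠ ⊤ ∧ G ≠ ⊥) ↔ ∃ ℓ : ℕ, 1 ≤ ℓ ∧ Nonempty (G ≃g T ℓ))) ∧
    ∀ ℓ : ℕ, 1 ≤ ℓ → CoChordal (T ℓ) ∧ CoDiamTwo (T ℓ) := by
  refine ⟨?_, fun ℓ hℓ => ⟨T_coChordal, T_coDiamTwo hℓ⟩⟩
  intro V _ G h1 h2
  constructor
  · rintro ⟨h3, h4, h5⟩
    exact iso_T_of_minimallyTough h1 h2 h3 h4 h5
  · rintro ⟨ℓ, hℓ, ⟨e⟩⟩
    refine ⟨MinimallyTough.of_iso e T_minimallyTough, ?_, ?_⟩
    · rintro rfl
      apply T_ne_top hℓ
      ext u v
      rw [SimpleGraph.top_adj, ← e.symm.map_rel_iff]
      show (⊤ : SimpleGraph V).Adj (e.symm u) (e.symm v) ↔ _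
      rw [SimpleGraph.top_adj, ne_eq, e.symm.injective.eq_iff]
    · rintro rfl
      apply T_ne_bot (ℓ := ℓ)
      ext u v
      rw [← e.symm.map_rel_iff]
      show (⊥ : SimpleGraph V).Adj (e.symm u) (e.symm v) ↔ _
      simp

end Pool.Agent.Results.MP_c98209_co.OnlyTl
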